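import Pool.Agent.helper77.SK.Spec

set_option autoImplicit false

namespace Pool.Agent.SK

theorem EL_u1 {K : Type} [Field K] {N M u1 v1 : K} (hM : M ≠ 0) (hM1 : M + 1 ≠ 0)
    (h : R1 N M u1 v1) : u1 = (N * M - 1) / (M * (M + 1)) * v1 := by
  unfold R1 at h
  field_simp
  linear_combination h

theorem EL_u2 {K : Type} [Field K] {N M u1 u2 v1 v2 : K} (h2 : (2 : K) ≠ 0) (hM : M ≠ 0)
    (hM1 : M + 1 ≠ 0) (hM2 : M + 2 ≠ 0) (h : R2 N M u1 u2 v1 v2) :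
    u2 = (N * M - 1) * (N * M - 2) / (M * (M + 1) * (M + 2)) * (v1 ^ 2 - v2)
      - (M - 1) / 2 * u1 ^ 2 := by
  unfold R2 at h
  field_simp
  linear_combination h

theorem EL_u3 {K : Type} [Field K] {N M u1 u2 u3 v1 v2 v3 : K} (h2 : (2 : K) ≠ 0)
    (h3 : (3 : K) ≠ 0) (hM : M ≠ 0)
    (hM1 : M + 1 ≠ 0) (hM2 : M + 2 ≠ 0) (hM3 : M + 3 ≠ 0) (h : R3 N M u1 u2 u3 v1 v2 v3) :
    u3 = (N * M - 1) * (N * M - 2) * (N * M - 3) / (M * (M + 1) * (M + 2) * (M + 3))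
        * (v1 ^ 3 - 2 * v1 * v2 + v3)
      - (M - 1) * u1 * u2 - (M - 1) * (M - 2) / 6 * u1 ^ 3 := by
  unfold R3 at h
  have h6 : (6 : K) ≠ 0 := by
    have : (6 : K) = 2 * 3 := by norm_num
    rw [this]; exact mul_ne_zero h2 h3
  field_simp
  linear_combination h

/-- the coefficients -/
theorem EL_det {K : Type} [Field K] {N M : K} (h2 : (2 : K) ≠ 0) (h6 : (6 : K) ≠ 0)
    (hM : M ≠ 0) (hM1 : M + 1 ≠ 0) (hM2 : M + 2 ≠ 0) (hM3 : M + 3 ≠ 0)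
    (k1 k21 k22 g k31 k32 e1 e2 a1 a2 a3 b1 b2 b3 : K)
    (hk1 : k1 = (N * M - 1) / (M * (M + 1)))
    (hk22 : k22 = -((N * M - 1) * (N * M - 2) / (M * (M + 1) * (M + 2))))
    (hk21 : k21 = (N * M - 1) * (N * M - 2) / (M * (M + 1) * (M + 2)) - (M - 1) / 2 * k1 ^ 2)
    (hg : g = (N * M - 1) * (N * M - 2) * (N * M - 3) / (M * (M + 1) * (M + 2) * (M + 3)))
    (hk32 : k32 = -2 * g - (M - 1) * k1 * k22)
    (hk31 : k31 = g - (M - 1) * k1 * k21 - (M - 1) * (M - 2) / 6 * k1 ^ 3)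
    (he1 : e1 = 3 * (M * (M + 1)) * k21 + (M * (M + 1) - 2 * (N * M - 1)) * k1)
    (he2 : e2 = 3 * (M * (M + 1)) * k22 + N * (N + 1) - 2 * (N * M - 1))
    (ha1 : a1 = M * (M + 1) * (6 * k31 + 3 * k21) - (N * M - 1) * (3 * k21))
    (ha2 : a2 = M * (M + 1) * (6 * k32 + 3 * k22 + k1) - (N * M - 1) * (3 * k22 + 4 * k1)
      + N * (N + 1) * k1)
    (ha3 : a3 = M * (M + 1) * (6 * g) - 3 * (N * M - 1) + 3 * (N * (N + 1)))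
    (hb1 : b1 = K1 N M * (12 * k31 + 3 * k21) - K2 N M * (3 * k21))
    (hb2 : b2 = K1 N M * (12 * k32 + 3 * k22) - K2 N M * (3 * k22 + 2 * k1)
      + K2 M N * (2 * k1))
    (hb3 : b3 = 12 * K1 N M * g + 3 * K2 M N - 3 * K1 M N) :
    (a1 * e2 - a2 * e1) * b3 - a3 * (b1 * e2 - b2 * e1)
      = -6 * (N * M - 1) * (M - 1) * (N + 1) * TT N M
        / (M ^ 2 * (M + 1) ^ 2 * (M + 2) ^ 2 * (M + 3)) := by
  subst hb3 hb2 hb1 ha3 ha2 ha1 he2 he1 hk31 hk32 hg hk21 hk22 hk1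
  unfold K1 K2 TT
  field_simp
  ring

theorem EL : EL_stmt := by
  intro K _ N M u1 u2 u3 v1 v2 v3 h2 h3 hM hM1 hM2 hM3 r1 r2 r3 E1 E2 E3
  have h6 : (6 : K) ≠ 0 := by
    have : (6 : K) = 2 * 3 := by norm_num
    rw [this]; exact mul_ne_zero h2 h3
  have hu1 := EL_u1 hM hM1 r1
  have hu2 := EL_u2 h2 hM hM1 hM2 r2
  have hu3 := EL_u3 h2 h3 hM hM1 hM2 hM3 r3
  obtain ⟨k1, hk1⟩ : ∃ k : K, k = (N * M - 1) / (M * (M + 1)) := ⟨_, rfl⟩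
  obtain ⟨k22, hk22⟩ : ∃ k : K,
    k = -((N * M - 1) * (N * M - 2) / (M * (M + 1) * (M + 2))) := ⟨_, rfl⟩
  obtain ⟨k21, hk21⟩ : ∃ k : K, k = (N * M - 1) * (N * M - 2) / (M * (M + 1) * (M + 2))
    - (M - 1) / 2 * k1 ^ 2 := ⟨_, rfl⟩
  obtain ⟨g, hg⟩ : ∃ k : K, k = (N * M - 1) * (N * M - 2) * (N * M - 3)
    / (M * (M + 1) * (M + 2) * (M + 3)) := ⟨_, rfl⟩
  obtain ⟨k32, hk32⟩ : ∃ k : K, k = -2 * g - (M - 1) * k1 * k22 := ⟨_, rfl⟩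
  obtain ⟨k31, hk31⟩ : ∃ k : K, k = g - (M - 1) * k1 * k21 - (M - 1) * (M - 2) / 6 * k1 ^ 3 :=
    ⟨_, rfl⟩
  obtain ⟨e1, he1⟩ : ∃ k : K, k = 3 * (M * (M + 1)) * k21
    + (M * (M + 1) - 2 * (N * M - 1)) * k1 := ⟨_, rfl⟩
  obtain ⟨e2, he2⟩ : ∃ k : K, k = 3 * (M * (M + 1)) * k22 + N * (N + 1) - 2 * (N * M - 1) :=
    ⟨_, rfl⟩
  obtain ⟨a1, ha1⟩ : ∃ k : K, k = M * (M + 1) * (6 * k31 + 3 * k21) - (N * M - 1) * (3 * k21) :=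
    ⟨_, rfl⟩
  obtain ⟨a2, ha2⟩ : ∃ k : K, k = M * (M + 1) * (6 * k32 + 3 * k22 + k1)
    - (N * M - 1) * (3 * k22 + 4 * k1) + N * (N + 1) * k1 := ⟨_, rfl⟩
  obtain ⟨a3, ha3⟩ : ∃ k : K, k = M * (M + 1) * (6 * g) - 3 * (N * M - 1) + 3 * (N * (N + 1)) :=
    ⟨_, rfl⟩
  obtain ⟨b1, hb1⟩ : ∃ k : K, k = K1 N M * (12 * k31 + 3 * k21) - K2 N M * (3 * k21) := ⟨_, rfl⟩
  obtain ⟨b2, hb2⟩ : ∃ k : K, k = K1 N M * (12 * k32 + 3 * k22) - K2 N M * (3 * k22 + 2 * k1)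
    + K2 M N * (2 * k1) := ⟨_, rfl⟩
  obtain ⟨b3, hb3⟩ : ∃ k : K, k = 12 * K1 N M * g + 3 * K2 M N - 3 * K1 M N := ⟨_, rfl⟩
  have hdet := EL_det h2 h6 hM hM1 hM2 hM3 k1 k21 k22 g k31 k32 e1 e2 a1 a2 a3 b1 b2 b3
    hk1 hk22 hk21 hg hk32 hk31 he1 he2 ha1 ha2 ha3 hb1 hb2 hb3
  have hL1 : 2 * (M * (M + 1)) * (M + 2) * e1 = L1 N M := by
    rw [he1, hk21, hk1]
    unfold L1
    field_simp
    ring
  have hL2 : (M + 2) * e2 = L2 N M := by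
    rw [he2, hk22]
    unfold L2
    field_simp
    ring
  have gu1 : u1 = k1 * v1 := by rw [hu1, hk1]
  have gu2 : u2 = k21 * v1 ^ 2 + k22 * v2 := by
    rw [hu2, gu1, hk21, hk22]; ring
  have gu3 : u3 = k31 * v1 ^ 3 + k32 * (v1 * v2) + g * v3 := by
    rw [hu3, ← hg, gu2, gu1, hk31, hk32]; ring
  have F1 : e1 * v1 ^ 2 + e2 * v2 = 0 := by
    rw [gu1, gu2] at E1
    rw [he1, he2]
    linear_combination E1
  have F2 : a1 * v1 ^ 3 + a2 * (v1 * v2) + a3 * v3 = 0 := by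
    rw [gu1, gu2, gu3] at E2
    rw [ha1, ha2, ha3]
    linear_combination E2
  have F3 : b1 * v1 ^ 3 + b2 * (v1 * v2) + b3 * v3 = 0 := by
    rw [gu1, gu2, gu3] at E3
    rw [hb1, hb2, hb3]
    linear_combination E3
  refine ⟨?_, ?_⟩
  · rw [← hL1, ← hL2]
    linear_combination (2 * M * (M + 1) * (M + 2)) * F1
  · have hd : ((a1 * e2 - a2 * e1) * b3 - a3 * (b1 * e2 - b2 * e1)) * v1 ^ 3 = 0 := by
      linear_combination (e2 * b3) * F2 - (a2 * b3 * v1) * F1 - (a3 * e2) * F3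
        + (a3 * b2 * v1) * F1
    rw [hdet] at hd
    have hden : M ^ 2 * (M + 1) ^ 2 * (M + 2) ^ 2 * (M + 3) ≠ 0 := by
      exact mul_ne_zero (mul_ne_zero (mul_ne_zero (pow_ne_zero 2 hM) (pow_ne_zero 2 hM1))
        (pow_ne_zero 2 hM2)) hM3
    have hX : (N * M - 1) * (M - 1) * (N + 1) * TT N M * v1 ^ 3 = 0 := by
      have h7 : -6 * ((N * M - 1) * (M - 1) * (N + 1) * TT N M * v1 ^ 3) = 0 := by
        have h8 := congrArg (fun x => x * (M ^ 2 * (M + 1) ^ 2 * (M + 2) ^ 2 * (M + 3))) hd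
        simp only [zero_mul] at h8
        rw [div_mul_eq_mul_div, div_mul_cancel₀ _ hden] at h8
        linear_combination h8
      rcases mul_eq_zero.1 h7 with h9 | h9
      · exact absurd (neg_eq_zero.1 h9) h6
      · exact h9
    linear_combination L2 N M * hX

end Pool.Agent.SK
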